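import Pool.Agent.Helper78.BM.Phi
import Pool.Agent.Helper66.FR.Zt5

/-!
# Project FQ (MP_0f6f3f_an), Sec6b: the defect operator of the boundary map

`T = Tb μ a E R b`, `T* T = p > 0`. `Df p f = (1 - p⁻¹ T T*) f T : L²(X; ℓ²(G)) → XUa`: `‖Df p f φ‖² = p (⟨Φ(|f|²) φ, φ⟩ - ‖Φ(f) φ‖²)` with `Φ(f) = p⁻¹ T* f T`.
`Df_xE`: it commutes with the projections of the base; `norm_Df_contr`, `norm_Df_cen`: `‖Df p f (V_q φ)‖ = ‖Df p f φ‖` for `q` contracted by `b`, or in the centraliser of `b`; `norm_Df_le`: `‖Df p f φ‖ ≤ ‖(f - c) T φ‖` for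
every constant `c`. `bmap_of_Df`: if `Df p f` kills the vector `1 ⊗ δ_1` for all `f` in `AV`, then there is a boundary map (`BMap`).
-/

set_option autoImplicit false
set_option linter.unusedSectionVars false

open MeasureTheory Filter Topology

namespace Pool.Agent.Helper7.FQ

open Pool.Agent.Helper84 Pool.Agent.Helper84.GN Pool.Agent.Helper84.GN.S3 Pool.Agent.Helper84.GN.S3.X
open Pool.Agent.Helper84.NI Pool.Agent.Helper84.GVN Pool.Agent.Helper90.RK
open Pool.Agent.Helper96.RK Pool.Agent.Helper66.FR Pool.Agent.Helper84.FR Pool.Agent.Helper55.FR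
open Pool.Agent.Helper78.BM

section Abs

variable {H K : Type} [NormedAddCommGroup H] [InnerProductSpace ℂ H] [CompleteSpace H]
  [NormedAddCommGroup K] [InnerProductSpace ℂ K] [CompleteSpace K]

/-- The defect operator `(1 - p⁻¹ T T*) M T`. -/
noncomputable def defect (T : H →L[ℂ] K) (p : ℝ) (M : K →L[ℂ] K) : H →L[ℂ] K :=
  M.comp T - (p : ℂ)⁻¹ • T.comp ((ContinuousLinearMap.adjoint T).comp (M.comp T))

variable {T : H →L[ℂ] K} {p : ℝ} {M M' : K →L[ℂ] K}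

theorem defect_apply (φ : H) : defect T p M φ = M (T φ) - (p : ℂ)⁻¹ • T (ContinuousLinearMap.adjoint T (M (T φ))) := rfl

theorem inner_defect (hp : 0 < p) (hTT : ∀ φ, ContinuousLinearMap.adjoint T (T φ) = (p : ℂ) • φ) (φ ψ : H) :
    inner ℂ (defect T p M φ) (defect T p M ψ) = inner ℂ (M (T φ)) (M (T ψ)) -
      (p : ℂ)⁻¹ * inner ℂ (ContinuousLinearMap.adjoint T (M (T φ))) (ContinuousLinearMap.adjoint T (M (T ψ))) := by
  have hp0 : (p : ℂ) ≠ 0 := Complex.ofReal_ne_zero.2 hp.ne'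
  set x := M (T φ)
  set y := M (T ψ)
  have h1 : ∀ z w : K, inner ℂ z (T (ContinuousLinearMap.adjoint T w)) =
      inner ℂ (ContinuousLinearMap.adjoint T z) (ContinuousLinearMap.adjoint T w) := fun z w => by
    rw [ContinuousLinearMap.adjoint_inner_left]
  have h2 : ∀ z w : K, inner ℂ (T (ContinuousLinearMap.adjoint T z)) w =
      inner ℂ (ContinuousLinearMap.adjoint T z) (ContinuousLinearMap.adjoint T w) := fun z w => by
    rw [ContinuousLinearMap.adjoint_inner_right]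
  have h3 : ContinuousLinearMap.adjoint T (T (ContinuousLinearMap.adjoint T x)) = (p : ℂ) • ContinuousLinearMap.adjoint T x := hTT _
  rw [defect_apply, defect_apply]
  change inner ℂ (x - (p : ℂ)⁻¹ • T (ContinuousLinearMap.adjoint T x)) (y - (p : ℂ)⁻¹ • T (ContinuousLinearMap.adjoint T y)) = _
  rw [inner_sub_left, inner_sub_right, inner_sub_right, inner_smul_left, inner_smul_left, inner_smul_right, inner_smul_right,
    h1, h2, h1, h3, inner_smul_left, map_inv₀, Complex.conj_ofReal]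
  field_simp
  ring

theorem norm_defect_sq (hp : 0 < p) (hTT : ∀ φ, ContinuousLinearMap.adjoint T (T φ) = (p : ℂ) • φ) (φ : H) :
    ‖defect T p M φ‖ ^ 2 = ‖M (T φ)‖ ^ 2 - p⁻¹ * ‖ContinuousLinearMap.adjoint T (M (T φ))‖ ^ 2 := by
  have h := inner_defect (M := M) hp hTT φ φ
  rw [inner_self_eq_norm_sq_to_K, inner_self_eq_norm_sq_to_K, inner_self_eq_norm_sq_to_K] at h
  apply Complex.ofReal_injective
  push_cast
  exact h

theorem norm_defect_le (hp : 0 < p) (hTT : ∀ φ, ContinuousLinearMap.adjoint T (T φ) = (p : ℂ) • φ) (φ : H) :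
    ‖defect T p M φ‖ ≤ ‖M (T φ)‖ := by
  have h := norm_defect_sq (M := M) hp hTT φ
  have h1 : 0 ≤ p⁻¹ * ‖ContinuousLinearMap.adjoint T (M (T φ))‖ ^ 2 := by positivity
  exact (sq_le_sq₀ (norm_nonneg _) (norm_nonneg _)).1 (by linarith)

/-- The defect of a scalar is zero. -/
theorem defect_sub (hp : 0 < p) (hTT : ∀ φ, ContinuousLinearMap.adjoint T (T φ) = (p : ℂ) • φ) (c : ℂ)
    (h : ∀ x, M' x = M x - c • x) (φ : H) : defect T p M' φ = defect T p M φ := by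
  have hp0 : (p : ℂ) ≠ 0 := Complex.ofReal_ne_zero.2 hp.ne'
  rw [defect_apply, defect_apply, h, map_sub, map_smul, hTT, map_sub, map_smul, map_smul, smul_sub, smul_comm ((p : ℂ)⁻¹) c,
    smul_smul ((p : ℂ)⁻¹), inv_mul_cancel₀ hp0, one_smul]
  abel

/-- If all the defects vanish, `T T*` commutes with the operators. -/
theorem comm_of_defect (hp : 0 < p) (h : ∀ φ, defect T p M φ = 0) (h' : ∀ φ, defect T p M' φ = 0)
    (hM : ∀ x y, inner ℂ (M x) y = inner ℂ x (M' y)) (x : K) :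
    T (ContinuousLinearMap.adjoint T (M x)) = M (T (ContinuousLinearMap.adjoint T x)) := by
  have hp0 : (p : ℂ) ≠ 0 := Complex.ofReal_ne_zero.2 hp.ne'
  have e : ∀ φ, M (T φ) = (p : ℂ)⁻¹ • T (ContinuousLinearMap.adjoint T (M (T φ))) := fun φ => sub_eq_zero.1 (h φ)
  have e' : ∀ φ, M' (T φ) = (p : ℂ)⁻¹ • T (ContinuousLinearMap.adjoint T (M' (T φ))) := fun φ => sub_eq_zero.1 (h' φ)
  have h1 : ∀ z w : K, inner ℂ z (T (ContinuousLinearMap.adjoint T w)) = inner ℂ (T (ContinuousLinearMap.adjoint T z)) w := fun z w => by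
    rw [← ContinuousLinearMap.adjoint_inner_left, ContinuousLinearMap.adjoint_inner_right]
  refine ext_inner_left ℂ fun z => ?_
  have hM' : ∀ x y, inner ℂ (M' x) y = inner ℂ x (M y) := fun x y => by
    rw [← inner_conj_symm, ← hM, inner_conj_symm]
  -- `<z, TT* M x> = <M' TT* z, x>`
  have e1 : inner ℂ z (T (ContinuousLinearMap.adjoint T (M x))) =
      (p : ℂ)⁻¹ * inner ℂ (T (ContinuousLinearMap.adjoint T (M' (T (ContinuousLinearMap.adjoint T z))))) x := by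
    have q1 : inner ℂ z (T (ContinuousLinearMap.adjoint T (M x))) = inner ℂ (M' (T (ContinuousLinearMap.adjoint T z))) x := by
      rw [h1, hM']
    have q2 := congrArg (fun y : K => inner ℂ y x) (e' (ContinuousLinearMap.adjoint T z))
    have q3 : inner ℂ (M' (T (ContinuousLinearMap.adjoint T z))) x =
      inner ℂ ((p : ℂ)⁻¹ • T (ContinuousLinearMap.adjoint T (M' (T (ContinuousLinearMap.adjoint T z))))) x := q2
    rw [q1, q3, inner_smul_left, map_inv₀, Complex.conj_ofReal]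
  have e2 : inner ℂ z (M (T (ContinuousLinearMap.adjoint T x))) =
      (p : ℂ)⁻¹ * inner ℂ z (T (ContinuousLinearMap.adjoint T (M (T (ContinuousLinearMap.adjoint T x))))) := by
    have q2 : inner ℂ z (M (T (ContinuousLinearMap.adjoint T x))) = inner ℂ z ((p : ℂ)⁻¹ •
      T (ContinuousLinearMap.adjoint T (M (T (ContinuousLinearMap.adjoint T x))))) :=
      congrArg (fun y : K => inner ℂ z y) (e (ContinuousLinearMap.adjoint T x))
    rw [q2, inner_smul_right]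
  rw [e1, e2, ← h1, hM', ← h1]

end Abs

variable {G1 X G Λ : Type} [Group G1] [TopologicalSpace G1] [IsTopologicalGroup G1] [MeasurableSpace X] [MulAction G1 X]
  [MeasurableConstSMul G1 X] [Group G] [Group Λ] [Countable Λ] {μ : Measure X} [SMulInvariantMeasure G1 X μ]
  [IsProbabilityMeasure μ] {a : Cocy G1 X Λ} {E : Emb Λ G} {R : Reg G} {pd : PD G} {b : ℕ → G1}

/-- The defect operator `(1 - p⁻¹ T T*) f T`. -/
noncomputable def Df (μ : Measure X) [SMulInvariantMeasure G1 X μ] [IsProbabilityMeasure μ] (a : Cocy G1 X Λ)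
    (E : Emb Λ G) (R : Reg G) (b : ℕ → G1) (p : ℝ) (f : G → ℂ) : XL μ (L2 G) →L[ℂ] XUa μ R :=
  defect (Tb μ a E R b) p (Mf μ R f)

variable {p : ℝ} {f : G → ℂ} {C : ℝ}

theorem Df_apply (φ : XL μ (L2 G)) : Df μ a E R b p f φ = Mf μ R f (Tb μ a E R b φ) -
    (p : ℂ)⁻¹ • Tb μ a E R b (ContinuousLinearMap.adjoint (Tb μ a E R b) (Mf μ R f (Tb μ a E R b φ))) := rfl

theorem norm_Df_sq (hp : 0 < p) (hTT : ∀ φ, ContinuousLinearMap.adjoint (Tb μ a E R b) (Tb μ a E R b φ) = (p : ℂ) • φ)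
    (φ : XL μ (L2 G)) : ‖Df μ a E R b p f φ‖ ^ 2 = ‖Mf μ R f (Tb μ a E R b φ)‖ ^ 2 -
      p⁻¹ * ‖ContinuousLinearMap.adjoint (Tb μ a E R b) (Mf μ R f (Tb μ a E R b φ))‖ ^ 2 := norm_defect_sq hp hTT φ

/-- **Smallness of the defect**: `‖Df p f φ‖ ≤ ‖(f - c) T φ‖`. -/
theorem norm_Df_le (hp : 0 < p) (hTT : ∀ φ, ContinuousLinearMap.adjoint (Tb μ a E R b) (Tb μ a E R b φ) = (p : ℂ) • φ)
    (hC : ∀ γ, ‖f γ‖ ≤ C) (c : ℂ) (φ : XL μ (L2 G)) :
    ‖Df μ a E R b p f φ‖ ≤ ‖Mf μ R (fun γ => f γ - c) (Tb μ a E R b φ)‖ := by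
  have h := defect_sub (T := Tb μ a E R b) (M := Mf μ R f) (M' := Mf μ R fun γ => f γ - c) hp hTT c (fun x => by
    rw [Mf_sub hC (D := ‖c‖) fun _ => le_rfl, Mf_const]) φ
  change ‖defect (Tb μ a E R b) p (Mf μ R f) φ‖ ≤ _
  rw [← h]
  exact norm_defect_le hp hTT φ

theorem norm_Df_bdd (hp : 0 < p) (hTT : ∀ φ, ContinuousLinearMap.adjoint (Tb μ a E R b) (Tb μ a E R b φ) = (p : ℂ) • φ)
    (hC : ∀ γ, ‖f γ‖ ≤ C) (φ : XL μ (L2 G)) : ‖Df μ a E R b p f φ‖ ≤ C * (√p * ‖φ‖) := by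
  have hC0 : 0 ≤ C := (norm_nonneg _).trans (hC 1)
  have h1 : ‖Tb μ a E R b φ‖ = √p * ‖φ‖ := by
    have h2 : ((‖Tb μ a E R b φ‖ ^ 2 : ℝ) : ℂ) = ((p * ‖φ‖ ^ 2 : ℝ) : ℂ) := by
      have h3 : inner ℂ (Tb μ a E R b φ) (Tb μ a E R b φ) = (p : ℂ) * inner ℂ φ φ := by
        rw [← ContinuousLinearMap.adjoint_inner_right, hTT, inner_smul_right]
      rw [inner_self_eq_norm_sq_to_K, inner_self_eq_norm_sq_to_K] at h3
      push_cast
      exact h3
    have h4 := Complex.ofReal_injective h2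
    have h5 := congrArg Real.sqrt h4
    rwa [Real.sqrt_sq (norm_nonneg _), Real.sqrt_mul hp.le, Real.sqrt_sq (norm_nonneg _)] at h5
  refine (norm_defect_le hp hTT φ).trans ((norm_Mf_le hC _).trans ?_)
  rw [h1]

/-- The defect operator commutes with the projections of the base. -/
theorem Df_xE {D : Set X} (hD : MeasurableSet D) (φ : XL μ (L2 G)) :
    Df μ a E R b p f (xE μ (L2 G) D φ) = (pyU μ b R).p D (Df μ a E R b p f φ) := by
  have h1 : ∀ x : XUa μ R, (pyU μ b R).p D (Mf μ R f x) = Mf μ R f ((pyU μ b R).p D x) := fun x =>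
    ((hom_rst (xmU_hom b (mulop f)) _ _ fun _ hx => mulop_memX R hx).y D hD x).symm
  rw [Df_apply, Df_apply, map_sub, map_smul, adj_xE f hD, Tb_xE hD, Tb_xE hD, h1]

/-- The form of the defect operator commutes with the projections of the base. -/
theorem inner_Df_xE {D : Set X} (hD : MeasurableSet D) (φ ψ : XL μ (L2 G)) :
    inner ℂ (Df μ a E R b p f (xE μ (L2 G) D φ)) (Df μ a E R b p f ψ) =
      inner ℂ (Df μ a E R b p f φ) (Df μ a E R b p f (xE μ (L2 G) D ψ)) := by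
  rw [Df_xE hD, Df_xE hD, (pyU μ b R).symm D hD]

/-- `Df* Df` commutes with the projections of the base. -/
theorem adj_Df_xE {D : Set X} (hD : MeasurableSet D) (φ : XL μ (L2 G)) :
    ContinuousLinearMap.adjoint (Df μ a E R b p f) (Df μ a E R b p f (xE μ (L2 G) D φ)) =
      xE μ (L2 G) D (ContinuousLinearMap.adjoint (Df μ a E R b p f) (Df μ a E R b p f φ)) := by
  refine ext_inner_left ℂ fun ψ => ?_
  rw [ContinuousLinearMap.adjoint_inner_right, ← inner_Df_xE hD, ← xE_symm hD, ContinuousLinearMap.adjoint_inner_right]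

/-- Contracted elements. -/
theorem norm_Df_contr (hp : 0 < p) (hTT : ∀ φ, ContinuousLinearMap.adjoint (Tb μ a E R b) (Tb μ a E R b φ) = (p : ℂ) • φ)
    (h3 : Tendsto (fun g : G1 => μ {x | a.a g x ≠ 1}) (𝓝 1) (𝓝 0)) {q : G1} (hq : q ∈ Ctr b) (φ : XL μ (L2 G)) :
    ‖Df μ a E R b p f (Vq μ a E q φ)‖ = ‖Df μ a E R b p f φ‖ := by
  have h1 := norm_Df_sq (f := f) hp hTT (Vq μ a E q φ)
  have h2 := norm_Df_sq (f := f) hp hTT φ
  have e1 : ‖Mf μ R f (Tb μ a E R b (Vq μ a E q φ))‖ = ‖Mf μ R f (Tb μ a E R b φ)‖ := by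
    rw [Tb_contr h3 hq, ← Mf_sSU, norm_sSU]
  rw [adj_contr h3 f hq, e1] at h1
  have e2 : ‖Vq μ a E q (ContinuousLinearMap.adjoint (Tb μ a E R b) (Mf μ R f (Tb μ a E R b φ)))‖ =
      ‖ContinuousLinearMap.adjoint (Tb μ a E R b) (Mf μ R f (Tb μ a E R b φ))‖ :=
    (vgR μ a (jjR E) q).norm_map _
  rw [e2, ← h2] at h1
  exact (sq_eq_sq₀ (norm_nonneg _) (norm_nonneg _)).1 h1

/-- `oL q` is isometric on the range of `Tb`. -/
theorem oL_iso (q : cen b) (z : XL μ (L2 G)) (w : XUa μ R) :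
    inner ℂ (oL μ a E R b q (Tb μ a E R b z)) (oL μ a E R b q w) = inner ℂ (Tb μ a E R b z) w := by
  have hU : UHom (xmUa μ b R) (CRep.ext (XAU R) E) := uhomU
  have h1 : oL μ a E R b 1 (Tb μ a E R b z) = Tb μ a E R b z := by
    rw [← Tb_cen]
    change Tb μ a E R b (Vq μ a E (1 : G1) z) = _
    rw [vg_one]
  have h2 : oL μ a E R b q⁻¹ (oL μ a E R b q w) = oL μ a E R b 1 w := by
    have h := opL_mul (xmUa μ b R) (cres a (cen b)) hU q⁻¹ q w
    rw [inv_mul_cancel] at h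
    exact h.symm
  have h3 : inner ℂ (oL μ a E R b q (Tb μ a E R b z)) (oL μ a E R b q w) =
      inner ℂ (Tb μ a E R b z) (oL μ a E R b q⁻¹ (oL μ a E R b q w)) :=
    opL_adj (xmUa μ b R) (cres a (cen b)) hU q _ _
  have h4 : inner ℂ (oL μ a E R b 1 (Tb μ a E R b z)) w = inner ℂ (Tb μ a E R b z) (oL μ a E R b 1⁻¹ w) :=
    opL_adj (xmUa μ b R) (cres a (cen b)) hU 1 _ _
  rw [h3, h2, ← h1]
  conv_rhs => rw [h1, ← h1, h4, inv_one]
  rw [h1]

/-- Elements of the centraliser: `T* oL q = V_q T*`. -/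
theorem adj_oL (q : cen b) (w : XUa μ R) :
    ContinuousLinearMap.adjoint (Tb μ a E R b) (oL μ a E R b q w) =
      Vq μ a E (q : G1) (ContinuousLinearMap.adjoint (Tb μ a E R b) w) := by
  refine ext_inner_left ℂ fun y => ?_
  obtain ⟨z, rfl⟩ : ∃ z, Vq μ a E (q : G1) z = y := ⟨Vq μ a E (q : G1)⁻¹ y, Vq_inv' _ y⟩
  rw [ContinuousLinearMap.adjoint_inner_right, Tb_cen, oL_iso, inner_Vq, ContinuousLinearMap.adjoint_inner_right]

/-- Elements of the centraliser. -/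
theorem norm_Df_cen (hp : 0 < p) (hTT : ∀ φ, ContinuousLinearMap.adjoint (Tb μ a E R b) (Tb μ a E R b φ) = (p : ℂ) • φ)
    (hP : PLf R pd) (hf : AV R pd f) (q : cen b) (φ : XL μ (L2 G)) :
    ‖Df μ a E R b p f (Vq μ a E (q : G1) φ)‖ = ‖Df μ a E R b p f φ‖ := by
  obtain ⟨C, hC⟩ := hf.bdd
  have hC' : ∀ γ, ‖(starRingEnd ℂ) (f γ)‖ ≤ C := fun γ => by
    rw [RCLike.norm_conj]
    exact hC γ
  have h1 := norm_Df_sq (f := f) hp hTT (Vq μ a E (q : G1) φ)
  have h2 := norm_Df_sq (f := f) hp hTT φ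
  have hff : AV R pd fun γ => (starRingEnd ℂ) (f γ) * f γ := by
    have h := hf.conj.smul hf
    simpa only [smul_eq_mul] using h
  have e1 : ‖Mf μ R f (Tb μ a E R b (Vq μ a E (q : G1) φ))‖ = ‖Mf μ R f (Tb μ a E R b φ)‖ := by
    have key : ∀ x : XUa μ R, inner ℂ (Mf μ R f x) (Mf μ R f x) = inner ℂ x (Mf μ R (fun γ => (starRingEnd ℂ) (f γ) * f γ) x) := fun x => by
      rw [Mf_adj hC, Mf_mul hC' hC]
    have h4 : inner ℂ (Mf μ R f (Tb μ a E R b (Vq μ a E (q : G1) φ))) (Mf μ R f (Tb μ a E R b (Vq μ a E (q : G1) φ))) =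
        inner ℂ (Mf μ R f (Tb μ a E R b φ)) (Mf μ R f (Tb μ a E R b φ)) := by
      rw [key, key, Tb_cen, ← oL_Mf hP hff, oL_iso]
    rw [inner_self_eq_norm_sq_to_K, inner_self_eq_norm_sq_to_K] at h4
    have h5 : ‖Mf μ R f (Tb μ a E R b (Vq μ a E (q : G1) φ))‖ ^ 2 = ‖Mf μ R f (Tb μ a E R b φ)‖ ^ 2 := by
      apply Complex.ofReal_injective
      push_cast
      exact h4
    exact (sq_eq_sq₀ (norm_nonneg _) (norm_nonneg _)).1 h5
  have e0 : ContinuousLinearMap.adjoint (Tb μ a E R b) (Mf μ R f (Tb μ a E R b (Vq μ a E (q : G1) φ))) =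
      Vq μ a E (q : G1) (ContinuousLinearMap.adjoint (Tb μ a E R b) (Mf μ R f (Tb μ a E R b φ))) := by
    rw [Tb_cen, ← oL_Mf hP hf, adj_oL]
  have e2 : ‖Vq μ a E (q : G1) (ContinuousLinearMap.adjoint (Tb μ a E R b) (Mf μ R f (Tb μ a E R b φ)))‖ =
      ‖ContinuousLinearMap.adjoint (Tb μ a E R b) (Mf μ R f (Tb μ a E R b φ))‖ :=
    (vgR μ a (jjR E) (q : G1)).norm_map _
  rw [e0, e1, e2, ← h2] at h1
  exact (sq_eq_sq₀ (norm_nonneg _) (norm_nonneg _)).1 h1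

/-- Covariance for the `W_k`. -/
theorem Df_W (hC : ∀ γ, ‖f γ‖ ≤ C) (k : G) (φ : XL μ (L2 G)) :
    Df μ a E R b p (fun γ => f (γ * k)) (Wk μ k φ) = XBU R k (Df μ a E R b p f φ) := by
  rw [Df_apply, Df_apply, adj_W f hC, Tb_W, Tb_W, map_sub, map_smul, Mf_XBU hC]

/-- **The criterion.** If the defect operators kill the vector `1 ⊗ δ_1`, there is a boundary map. -/
theorem bmap_of_Df (hPS : PSh R pd) (hp : 0 < p)
    (hTT : ∀ φ, ContinuousLinearMap.adjoint (Tb μ a E R b) (Tb μ a E R b φ) = (p : ℂ) • φ)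
    (h : ∀ f : G → ℂ, AV R pd f → Df μ a E R b p f (cst μ (dl 1)) = 0) : Nonempty (BMap μ a E R pd b) := by
  have h1 : ∀ f : G → ℂ, AV R pd f → ∀ k : G, Df μ a E R b p f (cst μ (dl k)) = 0 := by
    intro f hf k
    obtain ⟨C, hC⟩ := hf.bdd
    have h2 := Df_W (μ := μ) (a := a) (E := E) (R := R) (b := b) (p := p) (f := fun γ => f (γ * k⁻¹)) (fun γ => hC _) k (cst μ (dl 1))
    rw [h _ (hf.shift hPS k⁻¹), map_zero, cl_cst] at h2
    have e1 : ((lamU k).toContinuousLinearEquiv : L2 G →L[ℂ] L2 G) (dl 1) = dl k := by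
      change lamU k (dl 1) = dl k
      rw [lamU_dl, mul_one]
    have e2 : (fun γ => f (γ * k * k⁻¹)) = f := funext fun γ => by rw [mul_inv_cancel_right]
    rw [e1, e2] at h2
    exact h2
  have h2 : ∀ f : G → ℂ, AV R pd f → ∀ φ, Df μ a E R b p f φ = 0 := by
    intro f hf φ
    have h3 : Df μ a E R b p f = 0 := by
      refine xl_clm_ext fun s hs l => ?_
      rw [Df_xE hs, h1 f hf l, map_zero, _root_.zero_apply]
    rw [h3, _root_.zero_apply]
  refine ⟨⟨p, hp, hTT, loc_of_Mf fun f hf hfb x => ?_⟩⟩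
  obtain ⟨C, hC⟩ := hfb
  have hf' : AV R pd f := AV.of_uc hf hC
  exact comm_of_defect hp (h2 f hf') (h2 _ hf'.conj) (Mf_adj hC) x

/-- `T* T = p` with `p` the mass. -/
theorem bmap_of_Df' (hPS : PSh R pd) (hE : ErgU μ a E (Ctr b)) (h3 : Tendsto (fun g : G1 => μ {x | a.a g x ≠ 1}) (𝓝 1) (𝓝 0))
    (h0 : XPpr R (vec μ a E b) ≠ 0)
    (h : ∀ f : G → ℂ, AV R pd f → Df μ a E R b (‖XPpr R (vec μ a E b)‖ ^ 2) f (cst μ (dl 1)) = 0) :
    Nonempty (BMap μ a E R pd b) :=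
  bmap_of_Df hPS (pow_pos (norm_pos_iff.2 h0) 2) (exists_mass hE h3) h

end Pool.Agent.Helper7.FQ
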