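import Pool.Agent.Helper55.FQ.Cfg
import Pool.Agent.Helper52.FQ.Inst
import Pool.Agent.Helper46.FQ.LemC
import Pool.Agent.Helper35.TZ.Fin2

/-!
# Project FQ (MP_0f6f3f_an): layer D at the nodes of a configuration

`invT_conj`: the fixed vectors of the conjugation representation of the complex conjugate embedding. `open_top`: `autC b` has no proper open subgroups. `irr_of_si`: the node representations are irreducible for the whole group.
`Cf.dat`: one section `σ` and one Haar measure for which helper52's `DD` holds for all nodes, together with helper46's Lemma C.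
-/

set_option autoImplicit false
set_option linter.unusedSectionVars false

open Filter Topology MeasureTheory Matrix

namespace Pool.Agent.Helper7.FQ

open Pool.Agent.Helper84 Pool.Agent.Helper84.GN Pool.Agent.Helper84.GN.S3 Pool.Agent.Helper84.GN.S3.X
open Pool.Agent.Helper84.NI Pool.Agent.Helper84.GVN Pool.Agent.Helper90.RK
open Pool.Agent.Helper96.RK Pool.Agent.Helper66.FR Pool.Agent.Helper84.FR Pool.Agent.Helper55.FR Pool.Agent.Helper96.FR
open Pool.Agent.Helper78.BM (adR adR_apply FullE InvT Kcont)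
open Pool.Agent.Helper84.GDL (GD SI)
open Pool.Agent.Helper45.FQ (HC pE)
open Pool.Agent.Helper52.FQ (DD DD_of Unq maut_w)
open Pool.Agent.Helper46.FQ (LC lemC Irr)
open Pool.Agent.Helper96.SA Pool.Agent.Helper96.TO
open Pool.Agent.Helper35.TZ (autC isAdj_autC autC_sub)

section Conj

variable {G Λ : Type} [Group G] [Group Λ]

theorem cj_iv (f : L2 G) : cj (ivU G f) = ivU G (cj f) := by
  apply l2_ext
  intro x
  simp

theorem adR_conj (E : Emb Λ G) (l : Λ) (f : L2 G) : adR E l (cj f) = cj (adR E.conj l f) := by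
  have h1 : adR E l (cj f) = cj (E.U l (cj (ivU G (E.U l (ivU G (cj f)))))) := by
    rw [adR_apply]
    change cj (E.U l (cj (ivU G (cj (cj (E.U l (cj (cj (ivU G (cj f)))))))))) = _
    rw [cj_cj, cj_cj]
  have h2 : adR E.conj l f = E.U l (ivU G (cj (E.U l (cj (ivU G f))))) := by
    rw [adR_apply]
    change cj (cj (E.U l (cj (cj (ivU G (cj (cj (cj (E.U l (cj (cj (cj (ivU G f))))))))))))) = _
    simp only [cj_cj]
  rw [h1, h2, cj_iv f, cj_iv (E.U l (ivU G (cj f)))]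

end Conj

section Inv

variable {G1 X G Λ : Type} [Group G1] [MeasurableSpace X] [MulAction G1 X]
  [MeasurableConstSMul G1 X] [Group G] [Group Λ] [Countable Λ] {μ : Measure X} [SMulInvariantMeasure G1 X μ]
  [IsProbabilityMeasure μ] {a : Cocy G1 X Λ} {E : Emb Λ G}

/-- The fixed vectors of the conjugation representation for the complex conjugate embedding. -/
theorem invT_conj (h : InvT μ a E) : InvT μ a E.conj := by
  intro φ hφ
  obtain ⟨ψ, hψ⟩ : ∃ ψ : XL μ (L2 G), ∀ᵐ x ∂μ, ψ x = cj (φ x) := ⟨star φ, by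
    filter_upwards [Lp.coeFn_star φ] with x hx
    rw [hx]
    rfl⟩
  obtain ⟨c, hc⟩ := h ψ fun g => by
    refine xl_ext ?_
    filter_upwards [vg_apply a (adR E) g ψ, vg_apply a (adR E.conj) g φ, hψ,
      (measurePreserving_smul g⁻¹ μ).quasiMeasurePreserving.ae hψ] with x h1 h2 h3 h4
    rw [h1, h4, adR_conj, ← h2, hφ g, h3]
  refine ⟨(starRingEnd ℂ) c, xl_ext ?_⟩
  filter_upwards [hψ, cst_apply (μ := μ) (dl (1 : G)), Lp.coeFn_smul c (cst μ (dl (1 : G)) : XL μ (L2 G)),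
    Lp.coeFn_smul ((starRingEnd ℂ) c) (cst μ (dl (1 : G)) : XL μ (L2 G))] with x h1 h2 h3 h4
  rw [h4, Pi.smul_apply, h2]
  have h5 : φ x = cj (ψ x) := by rw [h1, cj_cj]
  rw [h5, hc, h3, Pi.smul_apply, h2, cj_smul, cj_dl]

end Inv

section Conn

variable {L : Type} [LieRing L] [LieAlgebra ℝ L] {N : ℕ}

/-- `autC b` is connected. -/
theorem preconn (b : Module.Basis (Fin N) ℝ L) : PreconnectedSpace (autC b) := by
  have h1 : IsPreconnected ((autC b : Subgroup (GL (Fin N) ℝ)) : Set (GL (Fin N) ℝ)) := by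
    have h2 : ((autC b : Subgroup (GL (Fin N) ℝ)) : Set (GL (Fin N) ℝ)) =
        Subtype.val '' (connectedComponent (1 : Pool.Agent.Helper96.SA.autG b)) := rfl
    rw [h2]
    exact isPreconnected_connectedComponent.image _ continuous_subtype_val.continuousOn
  exact Subtype.preconnectedSpace h1

/-- No proper open subgroups. -/
theorem open_top (b : Module.Basis (Fin N) ℝ L) (H : Subgroup (autC b)) (hH : IsOpen (H : Set (autC b))) : H = ⊤ := by
  have h1 := preconn b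
  have h2 : IsClopen (H : Set (autC b)) := ⟨H.isClosed_of_isOpen hH, hH⟩
  have h3 := h2.eq_univ ⟨1, H.one_mem⟩
  exact SetLike.coe_injective (h3.trans Subgroup.coe_top.symm)

end Conn

/-- Irreducibility for the whole group. -/
theorem irr_of_si {𝔾 : Type} [Group 𝔾] [TopologicalSpace 𝔾] {ι : Type} [Fintype ι] [DecidableEq ι] {D : GD 𝔾 ι} {Γ : Subgroup 𝔾}
    (h : SI D Γ) : Irr D := fun l W hW => h l Γ le_rfl (by
  rw [Subgroup.subgroupOf_self]
  infer_instance) W fun γ _ w hw => hW γ w hw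

end Pool.Agent.Helper7.FQ

namespace Pool.Agent.Helper55.FQ

open Pool.Agent.Helper84.NI Pool.Agent.Helper84.GVN Pool.Agent.Helper90.RK
open Pool.Agent.Helper96.RK Pool.Agent.Helper66.FR Pool.Agent.Helper84.FR Pool.Agent.Helper55.FR
open Pool.Agent.Helper84.GDL (GD SI)
open Pool.Agent.Helper45.FQ (HC pE)
open Pool.Agent.Helper52.FQ (DD DD_of Unq maut_w)
open Pool.Agent.Helper46.FQ (LC lemC Irr)
open Pool.Agent.Helper35.TZ (autC isAdj_autC autC_sub)
open Pool.Agent.Helper7.FQ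

section Gr

variable {L : Type} [LieRing L] [LieAlgebra ℝ L] {N : ℕ} {r : ℕ} {θ : L ≃ₗ⁅ℝ⁆ L} {b : Module.Basis (Fin N) ℝ L} {A : Submodule ℝ L}
  {τ : Module.Dual ℝ A ≃ₗ[ℝ] A} {al : Fin r → Module.Dual ℝ A} {W : Fin r → A} {D : GD (autC b) (Fin r)}

/-- The fundamental coweights are not zero. -/
theorem Gr.W_ne (G : Gr θ b A τ al W D) (u : Fin r) : W u ≠ 0 := by
  intro h
  have h1 := G.hW u u
  rw [h, map_zero, if_pos rfl] at h1
  exact zero_ne_one h1

theorem Gr.ea_single (G : Gr θ b A τ al W D) (u : Fin r) (t : ℝ) :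
    ((D.ea (Pi.single u t) : autC b) : GL (Fin N) ℝ) = Pool.Agent.Helper96.SA.ex (Pool.Agent.Helper96.TO.TT_to b ((t • W u : A) : L)) := by
  rw [G.ea, Pool.Agent.Helper77.FQ.eaG_coe, Pool.Agent.Helper77.FQ.eaA]
  congr 3
  rw [Finset.sum_eq_single u (fun i _ hi => by rw [Pi.single_eq_of_ne hi, zero_smul]) fun hu => absurd (Finset.mem_univ u) hu,
    Pi.single_eq_same]

/-- The Mautner property at a node. -/
theorem Gr.maut [LieAlgebra.IsSimple ℝ L] (G : Gr θ b A τ al W D) (u : Fin r) {t : ℝ} (ht : t ≠ 0) (H : Type) [NormedAddCommGroup H]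
    [InnerProductSpace ℂ H] (π : autC b →* (H ≃ₗᵢ[ℂ] H)) (ξ : H) (hξ : ξ ∈ Pool.Agent.Helper96.FR.contVec π)
    (hf : π (D.ea (Pi.single u t)) ξ = ξ) (g : autC b) : π g ξ = ξ :=
  maut_w G.s.h (isAdj_autC b) (autC_sub G.s.h) G.s.hA (smul_ne_zero ht (G.W_ne u)) (G.ea_single u t) π ξ hξ hf g

end Gr

variable {L L' : Type} [LieRing L] [LieAlgebra ℝ L] [LieRing L'] [LieAlgebra ℝ L'] {N N' : ℕ} {r : ℕ}
  {θ : L ≃ₗ⁅ℝ⁆ L} {θ' : L' ≃ₗ⁅ℝ⁆ L'} {b : Module.Basis (Fin N) ℝ L} {b' : Module.Basis (Fin N') ℝ L'}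
  {A : Submodule ℝ L} {A' : Submodule ℝ L'} {τ : Module.Dual ℝ A ≃ₗ[ℝ] A} {τ' : Module.Dual ℝ A' ≃ₗ[ℝ] A'}
  {al : Fin r → Module.Dual ℝ A} {al' : Fin r → Module.Dual ℝ A'} {W : Fin r → A} {W' : Fin r → A'}
  {D : GD (autC b) (Fin r)} {D' : GD (autC b') (Fin r)} [MeasurableSpace (autC b)] [BorelSpace (autC b)] {Γ : Subgroup (autC b)} {Λ : Subgroup (autC b')} [Countable Γ] [Countable Λ]
  {X : Type} [MeasurableSpace X] [MulAction (autC b) X] [MeasurableConstSMul (autC b) X] {μ : Measure X}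
  [SMulInvariantMeasure (autC b) X μ] [IsProbabilityMeasure μ] {a : Cocy (autC b) X Γ} {E : Emb Γ Λ}

/-- **Layer D and Lemma C for a configuration**, from `SI D Γ` and a separating section. -/
theorem Cf.dat_of (C : Cf θ θ' A A' τ τ' al al' W W' D D' μ a E) (si : SI D Γ) {hm : Measure (autC b)} {σ : X → autC b}
    (hc : HC μ a.a Γ.subtype hm σ) (hu : Unq Γ.subtype σ) :
    (∀ (u : Fin r) (t : ℝ), 0 < t → DD μ a E (D.ea (Pi.single u t)) Γ.subtype hm σ) ∧ LC μ D σ := by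
  obtain ⟨i1, i2, i3⟩ := Pool.Agent.Helper35.TZ.lcs_autC b
  have i4 := C.simple
  have hirr := irr_of_si si
  refine ⟨fun u t ht => ?_, lemC D hc (open_top b) hirr⟩
  exact DD_of D u ht hc hu C.cyc.h3 C.cyc.hK (invT_conj C.cyc.hinv) (open_top b) (hirr u) fun H _ _ π ξ hξ hf g =>
    C.G.maut u ht.ne' H π ξ hξ hf g

/-- **Layer D and Lemma C for a configuration**: the same section for all nodes. -/
theorem Cf.dat' (C : Cf θ θ' A A' τ τ' al al' W W' D D' μ a E) : ∃ (hm : Measure (autC b)) (σ : X → autC b),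
    (∀ (u : Fin r) (t : ℝ), 0 < t → DD μ a E (D.ea (Pi.single u t)) Γ.subtype hm σ) ∧ LC μ D σ := by
  obtain ⟨hm, σ, hc, hu⟩ := C.hc
  exact ⟨hm, σ, C.dat_of C.si hc hu⟩

theorem Cf.dat (C : Cf θ θ' A A' τ τ' al al' W W' D D' μ a E) : ∃ (hm : Measure (autC b)) (σ : X → autC b),
    (∀ u : Fin r, DD μ a E (D.ea (Pi.single u 1)) Γ.subtype hm σ) ∧ LC μ D σ := by
  obtain ⟨hm, σ, h1, h2⟩ := C.dat'
  exact ⟨hm, σ, fun u => h1 u 1 one_pos, h2⟩

theorem Cf.dd (C : Cf θ θ' A A' τ τ' al al' W W' D D' μ a E) (u : Fin r) : ∃ (hm : Measure (autC b)) (σ : X → autC b),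
    DD μ a E (D.ea (Pi.single u 1)) Γ.subtype hm σ := by
  obtain ⟨hm, σ, h1, -⟩ := C.dat
  exact ⟨hm, σ, h1 u⟩

end Pool.Agent.Helper55.FQ
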